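import Pool.Agent.R153.LO5

set_option autoImplicit false

namespace Pool.Agent.Results.MP_ece343_co.InverseSmallBall

open Finset Pool.Agent.R153.LO

/-- The probability that the random signed sum `± a 0 ± ... ± a (n-1)`, the signs being
independent and uniform, lies in `B`: the proportion of the `2^n` choices of signs (the Boolean
`true` standing for the sign `+1` and `false` for `-1`) for which the sum is in `B`. -/
noncomputable def prob {n d : ℕ} (a : Fin n → EuclideanSpace ℝ (Fin d))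
    (B : Set (EuclideanSpace ℝ (Fin d))) : ℝ :=
  (Set.ncard {s : Fin n → Bool | ∑ i, (if s i then a i else -a i) ∈ B} : ℝ) / 2 ^ n

open Classical in
theorem prob_eq {n d : ℕ} (a : Fin n → EuclideanSpace ℝ (Fin d))
    (B : Set (EuclideanSpace ℝ (Fin d))) : prob a B =
    ((Finset.univ.filter fun s : Fin n → Bool => signSum a s ∈ B).card : ℝ) / 2 ^ n := by
  unfold prob
  congr 2
  rw [← Set.ncard_coe_finset]
  congr 1
  ext s
  simp only [Set.mem_ofPred_eq, Finset.coe_filter, Finset.mem_univ, true_and]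
  have : ∑ i, (if s i then a i else -a i) = signSum a s := by
    unfold signSum sg
    apply Finset.sum_congr rfl
    intro i _
    split_ifs <;> simp
  rw [this]

theorem rpow_est {ε C : ℝ} (hε : 0 < ε) (hε1 : ε < 1) (hC : 0 < C) (k : ℕ) (hk : 0 < k)
    (hck : C + 1 ≤ min ε (1 - ε) / 2 * k) (n q : ℕ) (hn : 2 ≤ n)
    (hq : (n : ℝ) ^ ε / (2 * k) ≤ 2 * q + 1)
    (hA : Real.exp (1 / 2) * (3 * Real.exp (1 / 2) * Real.sqrt (2 * k)) ^ k < n) :
    Real.exp (1 / 2) * beta (2 * q) ((n : ℝ) ^ (-ε) / (1 / Real.sqrt n)) ^ k < (n : ℝ) ^ (-C) := by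
  have hn0 : (0 : ℝ) < n := by positivity
  have hn1 : (1 : ℝ) ≤ n := by exact_mod_cast (by omega : 1 ≤ n)
  obtain ⟨c, hc⟩ : ∃ c, c = min ε (1 - ε) / 2 := ⟨_, rfl⟩
  have hc1 : c ≤ ε / 2 := by rw [hc]; linarith [min_le_left ε (1 - ε)]
  have hc2 : c ≤ (1 - ε) / 2 := by rw [hc]; linarith [min_le_right ε (1 - ε)]
  have hsn : Real.sqrt n = (n : ℝ) ^ (1 / 2 : ℝ) := Real.sqrt_eq_rpow _
  have h1 : 1 / ((n : ℝ) ^ (-ε) / (1 / Real.sqrt n)) = (n : ℝ) ^ (ε - 1 / 2) := by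
    rw [hsn, Real.rpow_sub hn0, Real.rpow_neg hn0.le]
    field_simp
  have hk0 : (0 : ℝ) < k := by exact_mod_cast hk
  have h2 : (n : ℝ) ^ (ε / 2) / Real.sqrt (2 * k) ≤ Real.sqrt (((2 * q : ℕ) : ℝ) + 1) := by
    have e : (n : ℝ) ^ (ε / 2) = Real.sqrt ((n : ℝ) ^ ε) := by
      rw [Real.sqrt_eq_rpow, ← Real.rpow_mul hn0.le]; ring_nf
    rw [e, ← Real.sqrt_div (by positivity)]
    apply Real.sqrt_le_sqrt
    push_cast
    exact hq
  have h2' : 0 < (n : ℝ) ^ (ε / 2) / Real.sqrt (2 * k) := by positivity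
  -- the bound for beta
  have h3 : beta (2 * q) ((n : ℝ) ^ (-ε) / (1 / Real.sqrt n)) ≤
      3 * Real.exp (1 / 2) * Real.sqrt (2 * k) * (n : ℝ) ^ (-c) := by
    unfold beta
    rw [h1]
    have e1 : Real.exp (1 / 2) * (2 + (n : ℝ) ^ (ε - 1 / 2)) / Real.sqrt (((2 * q : ℕ) : ℝ) + 1) ≤
        Real.exp (1 / 2) * (2 + (n : ℝ) ^ (ε - 1 / 2)) / ((n : ℝ) ^ (ε / 2) / Real.sqrt (2 * k)) :=
      div_le_div_of_nonneg_left (by positivity) h2' h2
    refine e1.trans ?_
    have e2 : Real.exp (1 / 2) * (2 + (n : ℝ) ^ (ε - 1 / 2)) /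
        ((n : ℝ) ^ (ε / 2) / Real.sqrt (2 * k)) =
        Real.exp (1 / 2) * Real.sqrt (2 * k) *
          (2 * (n : ℝ) ^ (-(ε / 2)) + (n : ℝ) ^ ((ε - 1) / 2)) := by
      have e3 : (n : ℝ) ^ ((ε - 1) / 2) = (n : ℝ) ^ (ε - 1 / 2) * (n : ℝ) ^ (-(ε / 2)) := by
        rw [← Real.rpow_add hn0]; ring_nf
      rw [e3, Real.rpow_neg hn0.le (ε / 2)]
      field_simp
    rw [e2]
    have e4 : (n : ℝ) ^ (-(ε / 2)) ≤ (n : ℝ) ^ (-c) :=
      Real.rpow_le_rpow_of_exponent_le hn1 (by linarith)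
    have e5 : (n : ℝ) ^ ((ε - 1) / 2) ≤ (n : ℝ) ^ (-c) :=
      Real.rpow_le_rpow_of_exponent_le hn1 (by linarith)
    have e6 : 2 * (n : ℝ) ^ (-(ε / 2)) + (n : ℝ) ^ ((ε - 1) / 2) ≤ 3 * (n : ℝ) ^ (-c) := by linarith
    calc Real.exp (1 / 2) * Real.sqrt (2 * k) *
          (2 * (n : ℝ) ^ (-(ε / 2)) + (n : ℝ) ^ ((ε - 1) / 2))
        ≤ Real.exp (1 / 2) * Real.sqrt (2 * k) * (3 * (n : ℝ) ^ (-c)) :=
          mul_le_mul_of_nonneg_left e6 (by positivity)
      _ = _ := by ring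
  have hb0 : 0 < beta (2 * q) ((n : ℝ) ^ (-ε) / (1 / Real.sqrt n)) :=
    beta_pos _ (by positivity)
  have h4 : beta (2 * q) ((n : ℝ) ^ (-ε) / (1 / Real.sqrt n)) ^ k ≤
      (3 * Real.exp (1 / 2) * Real.sqrt (2 * k)) ^ k * (n : ℝ) ^ (-(c * k)) := by
    refine (pow_le_pow_left₀ hb0.le h3 k).trans ?_
    rw [mul_pow, ← Real.rpow_natCast ((n : ℝ) ^ (-c)) k, ← Real.rpow_mul hn0.le]
    apply le_of_eq
    congr 2
    ring
  have h5 : (n : ℝ) ^ (-(c * k)) ≤ (n : ℝ) ^ (-C) * (n : ℝ)⁻¹ := by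
    rw [← Real.rpow_neg_one (n : ℝ), ← Real.rpow_add hn0]
    apply Real.rpow_le_rpow_of_exponent_le hn1
    rw [← hc] at hck
    linarith
  have hC0 : 0 < (n : ℝ) ^ (-C) := by positivity
  calc Real.exp (1 / 2) * beta (2 * q) ((n : ℝ) ^ (-ε) / (1 / Real.sqrt n)) ^ k
      ≤ Real.exp (1 / 2) * ((3 * Real.exp (1 / 2) * Real.sqrt (2 * k)) ^ k *
          ((n : ℝ) ^ (-C) * (n : ℝ)⁻¹)) := by
        apply mul_le_mul_of_nonneg_left _ (Real.exp_pos _).le
        exact h4.trans (mul_le_mul_of_nonneg_left h5 (by positivity))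
    _ = (Real.exp (1 / 2) * (3 * Real.exp (1 / 2) * Real.sqrt (2 * k)) ^ k) * (n : ℝ)⁻¹ *
          (n : ℝ) ^ (-C) := by ring
    _ < 1 * (n : ℝ) ^ (-C) := by
        apply mul_lt_mul_of_pos_right _ hC0
        rw [← div_eq_mul_inv, div_lt_one hn0]
        exact hA
    _ = (n : ℝ) ^ (-C) := one_mul _

open Classical in
/-- **The small-ball inverse Littlewood-Offord statement, in every dimension.** For every
`0 < ε < 1` and every `C > 0` there is `K`, depending only on `C` and `ε`, such that for all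
`n ≥ 2`, all dimensions `d`, all balls `B` of radius `1 / √n` in `R^d` and all vectors
`a_1, ..., a_n` of `R^d` with `p(B) ≥ n^(-C)`, some linear subspace `S` of dimension at most `K`
has at most `n^ε` of the `a_i` at distance more than `n^(-ε)`. -/
theorem result :
    ∀ ε : ℝ, 0 < ε → ε < 1 → ∀ C : ℝ, 0 < C → ∃ K : ℕ,
      ∀ n : ℕ, 2 ≤ n → ∀ d : ℕ, ∀ (x : EuclideanSpace ℝ (Fin d))
        (a : Fin n → EuclideanSpace ℝ (Fin d)),
        (n : ℝ) ^ (-C) ≤ prob a (Metric.closedBall x (1 / Real.sqrt n)) →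
        ∃ S : Submodule ℝ (EuclideanSpace ℝ (Fin d)), Module.finrank ℝ S ≤ K ∧
          ((Finset.univ.filter fun i =>
            (n : ℝ) ^ (-ε) < Metric.infDist (a i) (S : Set _)).card : ℝ) ≤ (n : ℝ) ^ ε := by
  intro ε hε hε1 C hC
  have hc : 0 < min ε (1 - ε) / 2 := by
    have : 0 < min ε (1 - ε) := lt_min hε (by linarith)
    linarith
  obtain ⟨k, hk⟩ := exists_nat_ge ((C + 1) / (min ε (1 - ε) / 2))
  have hck : C + 1 ≤ min ε (1 - ε) / 2 * k := by
    rw [div_le_iff₀ hc] at hk; linarith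
  have hk0 : 0 < k := by
    rcases Nat.eq_zero_or_pos k with h | h
    · rw [h] at hck; simp at hck; linarith
    · exact h
  have hkR : (0 : ℝ) < k := by exact_mod_cast hk0
  obtain ⟨K1, hK1⟩ := exists_nat_ge
    (Real.exp (1 / 2) * (3 * Real.exp (1 / 2) * Real.sqrt (2 * k)) ^ k)
  obtain ⟨K2, hK2⟩ := exists_nat_ge ((2 * (k : ℝ)) ^ (1 / ε))
  refine ⟨k + K1 + K2, ?_⟩
  intro n hn d x a hp
  by_cases hnK : n ≤ k + K1 + K2
  · -- few vectors
    refine ⟨Submodule.span ℝ (Set.range a), ?_, ?_⟩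
    · refine le_trans ?_ hnK
      have := finrank_range_le_card (R := ℝ) a
      rw [Fintype.card_fin] at this
      exact this
    · have h0 : (Finset.univ.filter fun i => (n : ℝ) ^ (-ε) <
          Metric.infDist (a i) (Submodule.span ℝ (Set.range a) : Set _)) = ∅ := by
        rw [Finset.filter_eq_empty_iff]
        intro i _
        rw [not_lt, Metric.infDist_zero_of_mem (Submodule.subset_span (Set.mem_range_self i))]
        positivity
      rw [h0, Finset.card_empty, Nat.cast_zero]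
      positivity
  · by_contra hcon
    push Not at hcon
    have hn0 : (0 : ℝ) < n := by positivity
    have hnK1 : (K1 : ℝ) < n := by exact_mod_cast (by omega : K1 < n)
    have hnK2 : (K2 : ℝ) < n := by exact_mod_cast (by omega : K2 < n)
    have hbig : 2 * (k : ℝ) ≤ (n : ℝ) ^ ε := by
      have h1 : (2 * (k : ℝ)) ^ (1 / ε) ≤ n := hK2.trans hnK2.le
      have h2 := Real.rpow_le_rpow (by positivity) h1 hε.le
      rwa [← Real.rpow_mul (by positivity), one_div, inv_mul_cancel₀ hε.ne', Real.rpow_one] at h2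
    obtain ⟨q, hq⟩ : ∃ q : ℕ, q = ⌊(n : ℝ) ^ ε / (2 * k)⌋₊ := ⟨_, rfl⟩
    have hq0 : 0 < q := by
      rw [hq, Nat.floor_pos, le_div_iff₀ (by positivity)]
      linarith
    have hq1 : (q : ℝ) ≤ (n : ℝ) ^ ε / (2 * k) := by
      rw [hq]; exact Nat.floor_le (by positivity)
    have hq2 : (n : ℝ) ^ ε / (2 * k) ≤ 2 * q + 1 := by
      have := Nat.lt_floor_add_one ((n : ℝ) ^ ε / (2 * k))
      rw [← hq] at this
      have h0 : (0 : ℝ) ≤ q := by positivity
      linarith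
    have : Nonempty (Fin n) := ⟨⟨0, by omega⟩⟩
    have hr : (0 : ℝ) < 1 / Real.sqrt n := by positivity
    have hδ : (0 : ℝ) < (n : ℝ) ^ (-ε) := by positivity
    have hmain := concentration' a x hr hδ q k hq0 hk0 (by
      intro S hS
      have h1 := hcon S (by omega)
      have h2 : ((2 * q * k : ℕ) : ℝ) ≤ (n : ℝ) ^ ε := by
        push_cast
        rw [le_div_iff₀ (by positivity)] at hq1
        linarith
      have h3 := h2.trans h1.le
      exact_mod_cast h3)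
    rw [← prob_eq] at hmain
    have hlt := rpow_est hε hε1 hC k hk0 hck n q hn hq2 (lt_of_le_of_lt hK1 hnK1)
    linarith

end Pool.Agent.Results.MP_ece343_co.InverseSmallBall
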